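import Pool.Agent.R306.Near
import Pool.Agent.R306.ThickEx

/-!
# The Lindelöf hypothesis along almost all arithmetic progressions

Let `μ` be the least exponent with `ζ(1/2 + it) = O(t^(μ + ε))` for all `ε > 0`.  We prove
unconditionally that for almost all `α > 0` the least exponent for the discrete sequence
`ζ(1/2 + iαn)`, `n = 1, 2, 3, …`, is the same number `μ`.  So the Lindelöf hypothesis holds if and only
if `ζ(1/2 + iαn) = O(n^ε)`, with constants depending on `α`, for a set of positive measure of numbers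
`α`.  (The points `αn` have constant distances, while `ζ(1/2 + it)` varies at the scale `1 / log t`.)

More generally `αn` may be replaced by `αl + β`, for every fixed `β`, where `l` runs over any thick set
`Λ` of real numbers: `Λ` contains, for all `s > 0` and all large `x`, at least `c s x` points of
`[x, (1 + s) x]` which are at least `1` apart.  Relatively dense sets and sets of integers of positive
natural density are thick.  Finally, for relatively dense `Λ` a bound holds on the critical line if and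
only if it holds on `Λ + β` for almost all shifts `β`.

Proof.  By the starting file `PositiveProportion` there are, for all `δ > 0` and all small `h`,
arbitrarily large `T` such that `|ζ(1/2 + ix)| > T^(μ - δ)` on at least half of the window
`[T - h, T + h]`, whose length does not depend on `T`.  The dilations `α` in an interval `I` for which
some `αl + β` lies in this half have measure at least `c(h) |I|`, uniformly in `T` and in `I`; by
Lebesgue's density theorem almost all `α` have this property for infinitely many `T`.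
-/

set_option autoImplicit false

open MeasureTheory Filter Topology Set

namespace Pool.Agent.Results.MP_4e5e8a_nt.AlmostAllProgressions

/-- `|ζ(1/2 + it)|` -/
noncomputable def Z (t : ℝ) : ℝ := ‖riemannZeta (1 / 2 + t * Complex.I)‖

/-- `|ζ(1/2 + it)| = O((1 + |t|)^(κ + ε))` for every `ε > 0`; for `κ = 0` this is the Lindelöf
hypothesis. -/
def Exponent (κ : ℝ) : Prop := ∀ ε : ℝ, 0 < ε → ∃ C : ℝ, ∀ t : ℝ, Z t ≤ C * (1 + |t|) ^ (κ + ε)

/-- The same bound, only for the `t` in the set `S`. -/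
def ExponentOn (S : Set ℝ) (κ : ℝ) : Prop := ∀ ε : ℝ, 0 < ε → ∃ C : ℝ, ∀ t ∈ S,
  Z t ≤ C * (1 + |t|) ^ (κ + ε)

/-- `Λ` is thick: there is `c > 0` such that for all `s > 0` and all large `x` there are at least
`c s x` elements of `Λ` in `[x, (1 + s) x]` with mutual distances at least `1`. -/
def Thick (Λ : Set ℝ) : Prop := ∃ c : ℝ, 0 < c ∧ ∀ s : ℝ, 0 < s → ∃ x₀ : ℝ, ∀ x : ℝ, x₀ ≤ x →
  ∃ S : Finset ℝ, (∀ l ∈ S, l ∈ Λ ∧ x ≤ l ∧ l ≤ (1 + s) * x) ∧
    (∀ l ∈ S, ∀ l' ∈ S, l ≠ l' → 1 ≤ |l - l'|) ∧ c * s * x ≤ (S.card : ℝ)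

theorem thick_nat : Thick (Set.range fun n : ℕ => (n : ℝ)) := by
  refine ⟨1 / (2 * (1 + 1)), by norm_num, Pool.Agent.R306.thick_of_dense (g := 1) (x₁ := 0)
    (by norm_num) ?_⟩
  intro x hx
  exact ⟨(⌈x⌉₊ : ℝ), ⟨⌈x⌉₊, rfl⟩, Nat.le_ceil x, (Nat.ceil_lt_add_one hx).le⟩

theorem main {Λ : Set ℝ} (hΛ : Thick Λ) (β : ℝ) : ∀ᵐ α : ℝ, 0 < α → ∀ κ : ℝ, 0 ≤ κ →
    (ExponentOn {t : ℝ | ∃ l ∈ Λ, t = α * l + β} κ ↔ Exponent κ) := by
  obtain ⟨c, hc, h⟩ := hΛ
  exact Pool.Agent.R306.ae_exponent hc h β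

theorem progressions : ∀ᵐ α : ℝ, 0 < α → ∀ κ : ℝ, 0 ≤ κ →
    (ExponentOn {t : ℝ | ∃ n : ℕ, t = α * n} κ ↔ Exponent κ) := by
  filter_upwards [main thick_nat 0] with α hα h0 κ hκ
  have e : {t : ℝ | ∃ n : ℕ, t = α * n} =
      {t : ℝ | ∃ l ∈ Set.range (fun n : ℕ => (n : ℝ)), t = α * l + 0} := by
    ext t
    constructor
    · rintro ⟨n, hn⟩
      exact ⟨n, ⟨n, rfl⟩, by rw [hn, add_zero]⟩
    · rintro ⟨l, ⟨n, rfl⟩, hn⟩
      exact ⟨n, by rw [hn, add_zero]⟩
  rw [e]
  exact hα h0 κ hκ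

theorem result :
    -- almost all arithmetic progressions have the exponent of the critical line
    (∀ᵐ α : ℝ, 0 < α → ∀ κ : ℝ, 0 ≤ κ →
      (ExponentOn {t : ℝ | ∃ n : ℕ, t = α * n} κ ↔ Exponent κ)) ∧
    -- the Lindelöf hypothesis is decided by any set of `α` of positive measure
    (∀ κ : ℝ, 0 ≤ κ → ∀ E : Set ℝ, E ⊆ Set.Ioi 0 → volume E ≠ 0 →
      (∀ α ∈ E, ExponentOn {t : ℝ | ∃ n : ℕ, t = α * n} κ) → Exponent κ) ∧
    -- thick sets in the place of the integers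
    (∀ Λ : Set ℝ, Thick Λ → ∀ β : ℝ, ∀ᵐ α : ℝ, 0 < α → ∀ κ : ℝ, 0 ≤ κ →
      (ExponentOn {t : ℝ | ∃ l ∈ Λ, t = α * l + β} κ ↔ Exponent κ)) ∧
    -- relatively dense sets are thick
    (∀ (Λ : Set ℝ) (g x₁ : ℝ), (∀ x : ℝ, x₁ ≤ x → ∃ l ∈ Λ, x ≤ l ∧ l ≤ x + g) → Thick Λ) ∧
    -- sets of integers of positive natural density are thick
    (∀ (A : Set ℕ) [DecidablePred (· ∈ A)] (d : ℝ), 0 < d →
      Tendsto (fun n : ℕ => (((Finset.range n).filter (· ∈ A)).card : ℝ) / n) atTop (𝓝 d) →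
      Thick ((fun n : ℕ => (n : ℝ)) '' A)) ∧
    -- almost all shifts of a relatively dense set
    (∀ (Λ : Set ℝ) (g x₁ : ℝ), (∀ x : ℝ, x₁ ≤ x → ∃ l ∈ Λ, x ≤ l ∧ l ≤ x + g) → ∀ κ : ℝ, 0 ≤ κ →
      (Exponent κ ↔ ∀ᵐ β : ℝ, ExponentOn {t : ℝ | ∃ l ∈ Λ, t = l + β} κ)) := by
  refine ⟨progressions, ?_, fun Λ hΛ β => main hΛ β, ?_, ?_, ?_⟩
  · intro κ hκ E hE hv h
    by_contra hcon
    apply hv
    refine measure_mono_null ?_ (ae_iff.1 progressions)
    intro α hα h1
    exact hcon ((h1 (hE hα) κ hκ).1 (h α hα))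
  · intro Λ g x₁ hΛ
    have hg : 0 ≤ max g 0 := le_max_right _ _
    refine ⟨1 / (2 * (max g 0 + 1)), by positivity, Pool.Agent.R306.thick_of_dense (x₁ := x₁) hg ?_⟩
    intro x hx
    obtain ⟨l, h1, h2, h3⟩ := hΛ x hx
    exact ⟨l, h1, h2, h3.trans (by linarith [le_max_left g 0])⟩
  · intro A _ d hd hA
    exact ⟨d / 2, by positivity, Pool.Agent.R306.thick_of_density hd hA⟩
  · intro Λ g x₁ hΛ κ hκ
    exact Pool.Agent.R306.ae_shift hΛ hκ

end Pool.Agent.Results.MP_4e5e8a_nt.AlmostAllProgressions
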