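import Pool.Agent.R306.GeoR

/-!
# The Lindelöf hypothesis, measure and category

Let `a_1, a_2, …` be real numbers with `a_n → ∞` and `a_{n+1} / a_n → 1`, for instance `a_n = n`,
`a_n = n^100` or `a_n = √n`.  For `α > 1` consider the values `ζ(1/2 + i α^(a_n))` along the very sparse
sequence `α^(a_n)`, with bounds whose constants may depend on `α`.

* (category) For all `α > 1` outside a meagre set and all `κ ≥ 0` the bound `O(t^(κ + ε))` holds on the
  points `t = α^(a_n)` if and only if it holds for all real `t`.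
* (measure) For almost all `α > 1` and all `ε > 0` we have, for all large `n`,
  `|ζ(1/2 + i α^(a_n))| ≤ a_n^(1/2) n^(1/2 + ε)` (this is `n^(1 + ε)` for `α^n`).  In particular, if
  `a_n ≥ n^c` for some `c > 0`, the bound `O(t^ε)` of Lindelöf is true at the points `t = α^(a_n)` for
  almost all `α > 1`.
* (criterion) A bound `O(t^(κ + ε))` holds for all real `t` if and only if the set of those `α > 1` for
  which it holds at the points `α^(a_n)` is not meagre.  So, for `a_n ≥ n^c`: the set of the `α > 1` with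
  `ζ(1/2 + i α^(a_n)) = O(α^(ε a_n))` for all `ε > 0` has a complement of measure zero; it is the
  whole half-line if the Lindelöf hypothesis is true and meagre if the Lindelöf hypothesis is false.

Proof.  Every open interval of numbers `α` reaches all large `t` as `t = α^(a_n)`, and large values are
taken on open sets; so Baire's theorem gives the first assertion.  The second one follows from the
mean square of `ζ(1/2 + i α^a)` over `α`, which is `O(a)`, and the lemma of Borel and Cantelli.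
-/

set_option autoImplicit false

open MeasureTheory Filter Topology Set

namespace Pool.Agent.Results.MP_4e5e8a_nt.MeasureAndCategory

/-- `|ζ(1/2 + it)|` -/
noncomputable def Z (t : ℝ) : ℝ := ‖riemannZeta (1 / 2 + t * Complex.I)‖

/-- `|ζ(1/2 + it)| = O((1 + |t|)^(κ + ε))` for every `ε > 0`; for `κ = 0` this is the Lindelöf
hypothesis. -/
def Exponent (κ : ℝ) : Prop := ∀ ε : ℝ, 0 < ε → ∃ C : ℝ, ∀ t : ℝ, Z t ≤ C * (1 + |t|) ^ (κ + ε)

/-- The same bound, only for `t` in the set `S`. -/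
def ExponentOn (S : Set ℝ) (κ : ℝ) : Prop := ∀ ε : ℝ, 0 < ε → ∃ C : ℝ, ∀ t ∈ S,
  Z t ≤ C * (1 + |t|) ^ (κ + ε)

/-- The set of the points `α ^ (a n)`, `n = 0, 1, 2, …` -/
def points (a : ℕ → ℝ) (α : ℝ) : Set ℝ := {t : ℝ | ∃ n : ℕ, t = α ^ (a n)}

theorem category (a : ℕ → ℝ) (ha : Tendsto a atTop atTop)
    (har : Tendsto (fun n => a (n + 1) / a n) atTop (𝓝 1)) :
    ∀ᶠ α in residual ℝ, 1 < α → ∀ κ : ℝ, 0 ≤ κ → (ExponentOn (points a α) κ ↔ Exponent κ) :=
  Pool.Agent.R306.residual_exponentR ha har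

theorem result (a : ℕ → ℝ) (ha : Tendsto a atTop atTop)
    (har : Tendsto (fun n => a (n + 1) / a n) atTop (𝓝 1)) :
    -- category
    (∀ᶠ α in residual ℝ, 1 < α → ∀ κ : ℝ, 0 ≤ κ → (ExponentOn (points a α) κ ↔ Exponent κ)) ∧
    -- measure
    (∀ᵐ α : ℝ, 1 < α → ∀ ε : ℝ, 0 < ε → ∀ᶠ n : ℕ in atTop,
      Z (α ^ (a n)) ≤ (a n) ^ (1 / 2 : ℝ) * (n : ℝ) ^ (1 / 2 + ε)) ∧
    (∀ c : ℝ, 0 < c → (∀ᶠ n : ℕ in atTop, (n : ℝ) ^ c ≤ a n) →
      ∀ᵐ α : ℝ, 1 < α → ExponentOn (points a α) 0) ∧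
    -- criterion
    (∀ κ : ℝ, 0 ≤ κ → (Exponent κ ↔ ¬ IsMeagre {α : ℝ | 1 < α ∧ ExponentOn (points a α) κ})) := by
  refine ⟨category a ha har, Pool.Agent.R306.ae_rpow (ha.eventually_ge_atTop 1),
    fun c hc h => Pool.Agent.R306.ae_exponent_zero hc h, fun κ hκ => ⟨fun h hm => ?_, fun h => ?_⟩⟩
  · -- the half-line is not meagre
    have e : {α : ℝ | 1 < α ∧ ExponentOn (points a α) κ} = Ioi 1 := by
      ext α
      exact ⟨fun h1 => h1.1, fun h1 => ⟨h1, fun ε hε => by
        obtain ⟨C, hC⟩ := h ε hε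
        exact ⟨C, fun t _ => hC t⟩⟩⟩
    rw [e] at hm
    exact not_isMeagre_of_isOpen isOpen_Ioi ⟨2, by norm_num⟩ hm
  · by_contra hcon
    apply h
    rw [IsMeagre]
    filter_upwards [category a ha har] with α hα hα2
    exact hcon ((hα hα2.1 κ hκ).1 hα2.2)

end Pool.Agent.Results.MP_4e5e8a_nt.MeasureAndCategory
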