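import Pool.Agent.R303.LM.A3

/-!
# The Lindelöf hypothesis and exponentially thin sublevel sets

Write `Z t = |ζ(1/2 + it)|` and let `Low T r v` be the set of the ordinates of the points `s` of the disc
`|s - (1/2 + iT)| ≤ r` at which `|ζ(s)| ≤ v`.

* (law for large values, unconditional) Let `0 < ε ≤ 1`.  For all large `T` with `Z T ≥ 1` there is `T₀` at
  bounded distance from `T` with `Z T₀ ≥ Z T / 2` such that, for EVERY radius `r` with
  `1 / log T ≤ r ≤ ε / 20`, the set `Low T₀ r (T^(-ε) Z T)` has (outer) Lebesgue measure at most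
  `41 r exp (-ε / (5 r))`.
* (criterion) For every `κ ≥ 0` the bound `ζ(1/2 + it) = O(|t|^(κ + ε'))` for all `ε' > 0` is equivalent to:
  for every `ε` in `(0, 1]` and all large `T` there is ONE radius `r` with `2 / log T ≤ r ≤ ε / 20` for which
  the measure of `Low T r (T^(κ + ε))` exceeds `41 r exp (-ε / (5 r))`.  For `κ = 0` this is the Lindelöf
  hypothesis.

So, were the Lindelöf hypothesis false, there would be `ε > 0` and arbitrarily large `T` for which, in all the
discs of radius `r` between `2 / log T` and `ε / 20` about `1/2 + iT`, the points with `|ζ| ≤ T^ε`, hence all the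
zeros too, are confined to horizontal lines the ordinates of which fill an exponentially small part
`O(exp (-ε / (5 r)))` of the window.  The earlier result on one window of radius `h` needed a proportion at least
a constant times `h / ε` of small values on the critical line.

Proof.  Near a weighted maximum `s₀` the function `G(z)`, which is `ζ(s₀ + z)` times `T^(z/2)` and a Gaussian
factor, is at most `M exp (τ |Re z|)` with `2 τ ≤ (1 + ε/4) log T` (`Pool.Agent.TH804.DL.peak_local`, helper804 of an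
earlier round).  A set of ordinates of measure `m` contains `n` points with distances at least `m / (2n)`, and the
Lagrange interpolation polynomial at such points is at most `n e (C r / m)^(n-1)` times the maximum at the nodes.
With `n` slightly larger than `(e r / π) (1 + ε/4) log T + 1` Jensen's formula for `G` minus this polynomial
in the disc of radius `e r` gives a contradiction if `m > 41 r exp (-ε / (5 r))`.
-/

set_option autoImplicit false

open Filter Topology MeasureTheory

namespace Pool.Agent.Results.MP_4e5e8a_nt.ThinSublevelSets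

/-- `|ζ(1/2 + it)|` -/
noncomputable def Z (t : ℝ) : ℝ := ‖riemannZeta (1 / 2 + t * Complex.I)‖

/-- `|ζ(1/2 + it)| = O((1 + |t|)^(κ + ε))` for every `ε > 0`; for `κ = 0` this is the Lindelöf
hypothesis. -/
def Exponent (κ : ℝ) : Prop := ∀ ε : ℝ, 0 < ε → ∃ C : ℝ, ∀ t : ℝ, Z t ≤ C * (1 + |t|) ^ (κ + ε)

/-- the ordinates of the points `s` of the disc `|s - (1/2 + iT)| ≤ r` with `|ζ(s)| ≤ v` -/
def Low (T r v : ℝ) : Set ℝ :=
  {t : ℝ | ∃ s : ℂ, s.im = t ∧ ‖s - (1 / 2 + T * Complex.I)‖ ≤ r ∧ ‖riemannZeta s‖ ≤ v}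

theorem result :
    -- the law for large values
    (∀ ε : ℝ, 0 < ε → ε ≤ 1 → ∃ W T₁ : ℝ, ∀ T : ℝ, T₁ ≤ T → 1 ≤ Z T →
      ∃ T₀ : ℝ, |T₀ - T| ≤ W ∧ Z T ≤ 2 * Z T₀ ∧
        ∀ r : ℝ, 1 / Real.log T ≤ r → r ≤ ε / 20 →
          volume (Low T₀ r (T ^ (-ε) * Z T)) ≤ ENNReal.ofReal (41 * r * Real.exp (-(ε / (5 * r))))) ∧
    -- the criterion
    (∀ κ : ℝ, 0 ≤ κ → (Exponent κ ↔
      ∀ ε : ℝ, 0 < ε → ε ≤ 1 → ∃ T₁ : ℝ, ∀ T : ℝ, T₁ ≤ T → ∃ r : ℝ, 2 / Real.log T ≤ r ∧ r ≤ ε / 20 ∧
        ENNReal.ofReal (41 * r * Real.exp (-(ε / (5 * r)))) < volume (Low T r (T ^ (κ + ε))))) := by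
  refine ⟨fun ε hε hε1 => ?_, fun κ hκ => ⟨fun h ε hε hε1 => ?_, fun h => ?_⟩⟩
  · obtain ⟨W, T₁, _, _, h⟩ := Pool.Agent.R303.LM.law hε hε1
    exact ⟨W, T₁, h⟩
  · exact Pool.Agent.R303.LM.thick_of_exponent hκ h hε hε1
  · exact Pool.Agent.R303.LM.exponent_of_thick hκ h

end Pool.Agent.Results.MP_4e5e8a_nt.ThinSublevelSets
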