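import Pool.Agent.R747.TL.E
import Pool.Agent.R747.TL.F

/-!
# The Lindelöf hypothesis and the means of `ζ` over intervals of two lengths

Write `Δ_h(t) = ζ(1/2 + i(t + h)) - ζ(1/2 + it)` and let `‖x‖` be the distance of `x` to the integers.

* (one length, unconditional) For every real `h` there is `K` with
  `‖(h / 2π) log (t / 2π)‖ |ζ(1/2 + it)| ≤ |Δ_h(t)| / 2 + K` for all `t ≥ 1`.
* (two lengths, unconditional) Let `h ≠ 0`, and let `h'/h` be not exponentially approximable; this holds for
  instance if it is irrational and not a Liouville number.  Then for every `ε > 0`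
  `|ζ(1/2 + it)| ≤ C t^ε (1 + |Δ_h(t)| + |Δ_h'(t)|)` for all `t ≥ 1`, with `(1 + log t)^m` in place of `t^ε` if
  `q^m ‖q h'/h‖ ≥ c > 0` for all `q ≥ 1` (`m = 1` for `h = 1`, `h' = √2`).
* (means) For `κ ≥ 0` and real `h` the bounds `O(t^(κ + ε))` for `∫_t^{t+h} ζ(1/2 + iu) du` and for `Δ_h(t)`
  are equivalent.
* (criterion) For two lengths as above, the bound `ζ(1/2 + it) = O(t^(κ + ε))` is equivalent to this bound for the
  two integrals.  So the Lindelöf hypothesis holds if and only if the integrals of `ζ(1/2 + iu)` over the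
  intervals `[t, t + 1]` and `[t, t + √2]` are `O(t^ε)`.
* (structure) The set of all lengths `h` for which the integral is `O(t^(κ + ε))` is a subgroup of the real
  line.  It is the whole line if and only if `ζ(1/2 + it) = O(t^(κ + ε))`; otherwise it is contained in a countable
  union of closed sets of Hausdorff dimension zero, and the quotients of its elements are exponentially
  approximable.

Proof.  On the critical line `ζ = X conj ζ`, `|X| = 1`, and `X` is multiplied by `e^{-ih log (t/2π)} + O(1/t)` if `t` is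
replaced by `t + h`.  So the values at `t` and at `t + h` lie on two fixed real lines through `0` with this
angle, and their difference is at least the distance of one of them from the other line.  If this angle is small
for `h` and for `h'` then `h'/h` is close to a fraction with denominator about `(h/2π) log (t/2π)`.  If the bound
for `ζ` fails, the angle must be exponentially small at a sequence of points `t_j`, for all lengths in the
subgroup.  From the integrals to the differences one comes by the three lines theorem and Cauchy's estimate,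
back by the maximum principle to the right of the line and Cauchy's theorem in a rectangle.
-/

set_option autoImplicit false

open Pool.Agent.R747.TL

namespace Pool.Agent.Results.MP_4e5e8a_nt.TwoLengths

theorem result :
    -- one length
    (∀ h : ℝ, ∃ K : ℝ, ∀ t : ℝ, 1 ≤ t →
      |h * Real.log (t / (2 * Real.pi)) / (2 * Real.pi) -
          round (h * Real.log (t / (2 * Real.pi)) / (2 * Real.pi))| * ‖zl t‖ ≤
        ‖zl (t + h) - zl t‖ / 2 + K) ∧
    -- two lengths
    (∀ h h' : ℝ, h ≠ 0 → ¬ ExpApprox (h' / h) → ∀ ε : ℝ, 0 < ε → ∃ C : ℝ, ∀ t : ℝ, 1 ≤ t →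
      ‖zl t‖ ≤ C * t ^ ε * (1 + ‖zl (t + h) - zl t‖ + ‖zl (t + h') - zl t‖)) ∧
    (∀ h h' : ℝ, h ≠ 0 → ∀ (m : ℕ) (c : ℝ), 0 < c →
      (∀ q : ℕ, 0 < q → ∀ p : ℤ, c ≤ (q : ℝ) ^ m * |(q : ℝ) * (h' / h) - p|) →
      ∃ C : ℝ, ∀ t : ℝ, 1 ≤ t →
        ‖zl t‖ ≤ C * (1 + Real.log t) ^ m * (1 + ‖zl (t + h) - zl t‖ + ‖zl (t + h') - zl t‖)) ∧
    (∀ α : ℝ, Irrational α → ¬ Liouville α → ¬ ExpApprox α) ∧
    -- the integrals and the criterion
    (∀ κ : ℝ, 0 ≤ κ →
      (∀ h : ℝ, Means h κ ↔ Increments h κ) ∧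
      (∀ h h' : ℝ, h ≠ 0 → ¬ ExpApprox (h' / h) → (Exponent κ ↔ Means h κ ∧ Means h' κ)) ∧
      -- the structure of the set of the lengths
      ∃ L : AddSubgroup ℝ, (L : Set ℝ) = {h : ℝ | Means h κ} ∧ (L = ⊤ ↔ Exponent κ) ∧
        (¬ Exponent κ → (∀ h ∈ L, ∀ h' ∈ L, h ≠ 0 → ExpApprox (h' / h)) ∧
          ∃ F : ℕ → Set ℝ, (∀ n, IsClosed (F n) ∧ dimH (F n) = 0) ∧ (L : Set ℝ) ⊆ ⋃ n, F n)) := by
  refine ⟨fun h => ?_, fun h h' hh hα ε hε => core hh hα ε hε,
    fun h h' hh m c hc hα => core_log hh hc hα, fun α h1 h2 => not_expApprox h1 h2, fun κ hκ => ?_⟩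
  · obtain ⟨K, _, hK⟩ := key h
    exact ⟨K, hK⟩
  · have hiff : ∀ h : ℝ, Means h κ ↔ Increments h κ := fun h => ⟨means_incr hκ, incr_means hκ⟩
    refine ⟨hiff, fun h h' hh hα => ⟨fun H => ⟨exponent_means hκ H h, exponent_means hκ H h'⟩,
      fun ⟨H, H'⟩ => two_lengths hκ hh hα ((hiff h).1 H) ((hiff h').1 H')⟩, grp κ hκ, ?_, top_iff hκ, ?_⟩
    · ext h
      exact (hiff h).symm
    · intro hE
      refine ⟨fun h hh h' hh' h0 => ?_, ?_⟩
      · by_contra hα
        exact hE (two_lengths hκ h0 hα hh hh')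
      · exact small_grp hκ hE

end Pool.Agent.Results.MP_4e5e8a_nt.TwoLengths
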